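import Pool.Agent.Lib.MP_eee7a8_ag.TB.C63.Vcorn

/-!
# TAGBR, module BRSYSB: the function of a bracelet of nonnegative degrees is the function of a system
-/

open Matrix

namespace Pool.Agent.Lib.MP_eee7a8_ag.TB.C63

/-! ### Multisets -/

theorem exists_pos_of_sum {α : Type*} (f : α → ℤ) (M : Multiset α) (h : 0 ≤ (M.map f).sum)
    {x : α} (hx : x ∈ M) (hf : f x < 0) : ∃ y ∈ M, 0 < f y := by
  by_contra hn
  push Not at hn
  obtain ⟨M', rfl⟩ := Multiset.exists_cons_of_mem hx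
  rw [Multiset.map_cons, Multiset.sum_cons] at h
  have key : ∀ M' : Multiset α, (∀ y ∈ M', f y ≤ 0) → (M'.map f).sum ≤ 0 := by
    intro M'
    induction M' using Multiset.induction with
    | empty => intro _; simp
    | cons a s ih =>
      intro h
      rw [Multiset.map_cons, Multiset.sum_cons]
      have h1 := h a (Multiset.mem_cons_self a s)
      have h2 := ih (fun y hy => h y (Multiset.mem_cons_of_mem hy))
      linarith
  have := key M' (fun y hy => hn y (Multiset.mem_cons_of_mem hy))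
  linarith

open Classical in
theorem exists_match {α : Type*} (r : α → α → Prop) (hr : Equivalence r) (N : Multiset α) :
    ∀ P : Multiset α, (∀ x ∈ N, N.countP (r x) ≤ P.countP (r x)) →
      ∃ P' P'', P = P' + P'' ∧ Multiset.Rel r N P'' := by
  induction N using Multiset.induction with
  | empty =>
    intro P _
    exact ⟨P, 0, by simp, Multiset.Rel.zero⟩
  | cons x N ih =>
    intro P h
    have h1 := h x (Multiset.mem_cons_self x N)
    rw [Multiset.countP_cons_of_pos _ (hr.refl x)] at h1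
    have h2 : 0 < P.countP (r x) := by omega
    obtain ⟨y, hy, hxy⟩ := Multiset.countP_pos.1 h2
    obtain ⟨P1, rfl⟩ := Multiset.exists_cons_of_mem hy
    obtain ⟨P', P'', rfl, hrel⟩ := ih P1 (by
      intro z hz
      have h3 := h z (Multiset.mem_cons_of_mem hz)
      by_cases hzx : r z x
      · rw [Multiset.countP_cons_of_pos _ hzx,
          Multiset.countP_cons_of_pos _ (hr.trans hzx hxy)] at h3
        omega
      · rw [Multiset.countP_cons_of_neg _ hzx, Multiset.countP_cons_of_neg _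
          (fun h => hzx (hr.trans h (hr.symm hxy)))] at h3
        exact h3)
    refine ⟨P', y ::ₘ P'', by rw [Multiset.add_cons], Multiset.Rel.cons hxy hrel⟩

theorem rel_prod {α β M : Type*} [CommMonoid M] (F A : α → M) (B : β → M) (N : Multiset α)
    (P : Multiset β) (h : Multiset.Rel (fun x y => F x = A x * B y) N P) :
    (N.map F).prod = (N.map A).prod * (P.map B).prod := by
  induction h with
  | zero => simp
  | cons hab _ ih =>
    simp only [Multiset.map_cons, Multiset.prod_cons]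
    rw [hab, ih]
    ac_rfl

theorem rel_sum {α β M : Type*} [AddCommMonoid M] (F A : α → M) (B : β → M) (N : Multiset α)
    (P : Multiset β) (h : Multiset.Rel (fun x y => F x = A x + B y) N P) :
    (N.map F).sum = (N.map A).sum + (P.map B).sum := by
  induction h with
  | zero => simp
  | cons hab _ ih =>
    simp only [Multiset.map_cons, Multiset.sum_cons]
    rw [hab, ih]
    ac_rfl

open Classical in
theorem sum_count {α : Type*} (f : α → ℤ) (r n : α → Prop) (M : Multiset α)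
    (h : ∀ x ∈ M, f x = if r x then (if n x then -1 else 1) else 0) :
    (M.map f).sum = ((M.filter (fun x => ¬ n x)).countP r : ℤ) - (M.filter n).countP r := by
  induction M using Multiset.induction with
  | empty => simp
  | cons x M ih =>
    have ih' := ih (fun y hy => h y (Multiset.mem_cons_of_mem hy))
    have hx := h x (Multiset.mem_cons_self x M)
    rw [Multiset.map_cons, Multiset.sum_cons, ih', hx]
    by_cases h1 : r x <;> by_cases h2 : n x <;> simp [h1, h2] <;> ring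

/-! ### Oriented tagged arcs -/

variable {G : Subgroup SLZ}

/-- `τ` is, up to `G`, the arc from `p` to `w` with tags `s` at `p` and `t` at `w`. -/
def OrG (G : Subgroup SLZ) (τ : TArc) (p w : Cusp) (s t : Bool) : Prop :=
  ∃ g ∈ G, (g • τ.a = p ∧ g • τ.b = w ∧ τ.s = s ∧ τ.t = t) ∨
    (g • τ.a = w ∧ g • τ.b = p ∧ τ.s = t ∧ τ.t = s)

theorem OrG.swap {τ : TArc} {p w : Cusp} {s t : Bool} (h : OrG G τ p w s t) :
    OrG G τ w p t s := by
  obtain ⟨g, hg, h | h⟩ := h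
  · exact ⟨g, hg, Or.inr h⟩
  · exact ⟨g, hg, Or.inl h⟩

theorem OrG.smul {τ : TArc} {p w : Cusp} {s t : Bool} (h : OrG G τ p w s t) {k : SLZ}
    (hk : k ∈ G) : OrG G τ (k • p) (k • w) s t := by
  obtain ⟨g, hg, ⟨h1, h2, h3⟩ | ⟨h1, h2, h3⟩⟩ := h
  · exact ⟨k * g, G.mul_mem hk hg, Or.inl ⟨by rw [mul_smul, h1], by rw [mul_smul, h2], h3⟩⟩
  · exact ⟨k * g, G.mul_mem hk hg, Or.inr ⟨by rw [mul_smul, h1], by rw [mul_smul, h2], h3⟩⟩

theorem OrG.self (τ : TArc) : OrG G τ τ.a τ.b τ.s τ.t :=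
  ⟨1, G.one_mem, Or.inl ⟨one_smul _ _, one_smul _ _, rfl, rfl⟩⟩

theorem OrG.same {τ : TArc} {p w : Cusp} {s t : Bool} (h : OrG G τ p w s t) :
    SameArc G τ.a τ.b p w := by
  obtain ⟨g, hg, ⟨h1, h2, h3⟩ | ⟨h1, h2, h3⟩⟩ := h
  · exact ⟨g, hg, Or.inl ⟨h1, h2⟩⟩
  · exact ⟨g, hg, Or.inr ⟨h1, h2⟩⟩

theorem OrG.tag {τ : TArc} (hτ : IsTArc G τ) {p w : Cusp} {s t : Bool} (h : OrG G τ p w s t)
    (hp : ∃ g ∈ G, g • p = w) : s = t := by
  obtain ⟨k, hk, hkp⟩ := hp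
  obtain ⟨g, hg, ⟨h1, h2, h3, h4⟩ | ⟨h1, h2, h3, h4⟩⟩ := h
  · rw [← h3, ← h4]
    apply hτ.tag (g⁻¹ * k * g) (G.mul_mem (G.mul_mem (G.inv_mem hg) hk) hg)
    rw [mul_smul, mul_smul, h1, hkp, ← h2, inv_smul_smul]
  · rw [← h3, ← h4]
    symm
    apply hτ.tag (g⁻¹ * k⁻¹ * g) (G.mul_mem (G.mul_mem (G.inv_mem hg) (G.inv_mem hk)) hg)
    rw [mul_smul, mul_smul, h1, ← hkp, inv_smul_smul, ← h2, inv_smul_smul]

/-- If the ends are at different punctures then the tags are determined by the orientation. -/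
theorem OrG.uniq {τ : TArc} {p w : Cusp} {s t s' t' : Bool} (h : OrG G τ p w s t)
    (h' : OrG G τ p w s' t') (hp : ∀ g ∈ G, g • p ≠ w) : s = s' ∧ t = t' := by
  obtain ⟨g, hg, ⟨h1, h2, h3, h4⟩ | ⟨h1, h2, h3, h4⟩⟩ := h <;>
    obtain ⟨k, hk, ⟨h5, h6, h7, h8⟩ | ⟨h5, h6, h7, h8⟩⟩ := h'
  · exact ⟨by rw [← h3, ← h7], by rw [← h4, ← h8]⟩
  · exfalso
    apply hp (k * g⁻¹) (G.mul_mem hk (G.inv_mem hg))
    rw [mul_smul, ← h1, inv_smul_smul, h5]
  · exfalso
    apply hp (g * k⁻¹) (G.mul_mem hg (G.inv_mem hk))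
    rw [mul_smul, ← h5, inv_smul_smul, h1]
  · exact ⟨by rw [← h4, ← h8], by rw [← h3, ← h7]⟩

/-- The reversed tagged arc. -/
def rev (τ : TArc) : TArc := ⟨τ.b, τ.a, τ.t, τ.s⟩

theorem compat_rev {τ υ : TArc} (h : Compat G τ υ) : Compat G (rev τ) υ := by
  refine ⟨fun g hg hc => h.1 g hg (cross_comm_left.1 hc), ?_⟩
  rcases h.2 with ⟨⟨k, hk, c1, c2⟩, c3⟩ | ⟨⟨k, hk, c1, c2⟩, c3⟩ | ⟨c1, c2, c3, c4⟩
  · right; left
    exact ⟨⟨k, hk, c2, c1⟩, c3.symm⟩
  · left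
    exact ⟨⟨k, hk, c2, c1⟩, c3.symm⟩
  · right; right
    exact ⟨c3, c4, c1, c2⟩

theorem compat_rev' {τ υ : TArc} (h : Compat G τ υ) : Compat G τ (rev υ) := by
  refine ⟨fun g hg hc => h.1 g hg (cross_comm_right.1 hc), ?_⟩
  rcases h.2 with ⟨⟨k, hk, c1, c2⟩, c3⟩ | ⟨⟨k, hk, c1, c2⟩, c3⟩ | ⟨c1, c2, c3, c4⟩
  · right; left
    exact ⟨⟨k, hk, c1, c2⟩, c3⟩
  · left
    exact ⟨⟨k, hk, c1, c2⟩, c3⟩
  · right; right
    exact ⟨c2, c1, c4, c3⟩

theorem OrG.compat {τ υ : TArc} (hc : Compat G τ υ) {p w w' : Cusp} {s t s' t' : Bool}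
    (h : OrG G τ p w s t) (h' : OrG G υ p w' s' t') :
    ((∃ k ∈ G, k • p = p ∧ k • w = w') ∧ (s = s' ∨ t = t')) ∨
    ((∃ k ∈ G, k • p = w' ∧ k • w = p) ∧ (s = t' ∨ t = s')) ∨ s = s' := by
  have core : ∀ τ υ : TArc, Compat G τ υ → ∀ g ∈ G, ∀ g' ∈ G, g • τ.a = p → g • τ.b = w →
      τ.s = s → τ.t = t → g' • υ.a = p → g' • υ.b = w' → υ.s = s' → υ.t = t' →
      ((∃ k ∈ G, k • p = p ∧ k • w = w') ∧ (s = s' ∨ t = t')) ∨
      ((∃ k ∈ G, k • p = w' ∧ k • w = p) ∧ (s = t' ∨ t = s')) ∨ s = s' := by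
    intro τ υ hc g hg g' hg' h1 h2 h3 h4 h5 h6 h7 h8
    have hm : ∀ k ∈ G, g' * k * g⁻¹ ∈ G :=
      fun k hk => G.mul_mem (G.mul_mem hg' hk) (G.inv_mem hg)
    rcases hc.2 with ⟨⟨k, hk, c1, c2⟩, c3⟩ | ⟨⟨k, hk, c1, c2⟩, c3⟩ | ⟨c1, c2, c3, c4⟩
    · left
      rw [h3, h4, h7, h8] at c3
      refine ⟨⟨g' * k * g⁻¹, hm k hk, ?_, ?_⟩, c3⟩
      · rw [mul_smul, mul_smul, ← h1, inv_smul_smul, c1, h5, ← h1]
      · rw [mul_smul, mul_smul, ← h2, inv_smul_smul, c2, h6]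
    · right; left
      rw [h3, h4, h7, h8] at c3
      refine ⟨⟨g' * k * g⁻¹, hm k hk, ?_, ?_⟩, c3⟩
      · rw [mul_smul, mul_smul, ← h1, inv_smul_smul, c1, h6]
      · rw [mul_smul, mul_smul, ← h2, inv_smul_smul, c2, h5]
    · right; right
      rw [← h3, ← h7]
      apply c1 (g'⁻¹ * g) (G.mul_mem (G.inv_mem hg') hg)
      rw [mul_smul, h1, ← h5, inv_smul_smul]
  obtain ⟨g, hg, h⟩ := h
  obtain ⟨g', hg', h'⟩ := h'
  rcases h with ⟨h1, h2, h3, h4⟩ | ⟨h1, h2, h3, h4⟩ <;>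
    rcases h' with ⟨h5, h6, h7, h8⟩ | ⟨h5, h6, h7, h8⟩
  · exact core τ υ hc g hg g' hg' h1 h2 h3 h4 h5 h6 h7 h8
  · exact core τ (rev υ) (compat_rev' hc) g hg g' hg' h1 h2 h3 h4 h6 h5 h8 h7
  · exact core (rev τ) υ (compat_rev hc) g hg g' hg' h2 h1 h4 h3 h5 h6 h7 h8
  · exact core (rev τ) (rev υ) (compat_rev' (compat_rev hc)) g hg g' hg' h2 h1 h4 h3 h6 h5 h8 h7

/-- Two compatible arcs with different tags at `p` have the same underlying arc and the same tag at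
the other end. -/
theorem OrG.key {τ υ : TArc} (hτ : IsTArc G τ) (hυ : IsTArc G υ) (hc : Compat G τ υ)
    {p w w' : Cusp} {s t s' t' : Bool} (h : OrG G τ p w s t) (h' : OrG G υ p w' s' t')
    (hs : s ≠ s') : t = t' ∧ OrG G υ p w s' t := by
  rcases h.compat hc h' with ⟨⟨k, hk, h1, h2⟩, h3⟩ | ⟨⟨k, hk, h1, h2⟩, h3⟩ | h3
  · have e : t = t' := h3.resolve_left hs
    refine ⟨e, ?_⟩
    have := h'.smul (G.inv_mem hk)
    rw [inv_smul_eq_iff.2 h1.symm, inv_smul_eq_iff.2 h2.symm, ← e] at this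
    exact this
  · exfalso
    have e1 : s' = t' := h'.tag hυ ⟨k, hk, h1⟩
    have e2 : s = t := h.tag hτ ⟨k⁻¹, G.inv_mem hk, by rw [← h2, inv_smul_smul]⟩
    rcases h3 with h3 | h3
    · exact hs (h3.trans e1.symm)
    · exact hs (e2.trans h3)
  · exact absurd h3 hs

/-- Sign of a tag. -/
theorem exists_plain (β : Bracelet G) {p : Cusp} (hdeg : 0 ≤ β.deg p) {τ : TArc}
    (hτ : τ ∈ β.arcs) {w : Cusp} {t : Bool} (ho : OrG G τ p w true t) :
    ∃ υ ∈ β.arcs, ∃ w' t', OrG G υ p w' false t' := by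
  classical
  have e : β.deg p = (β.arcs.map (fun τ => TArc.deg G τ p)).sum := by
    have h := map_multiset_sum (Pi.evalAddMonoidHom (fun _ : Cusp => ℤ) p)
      (β.arcs.map (TArc.deg G))
    rw [Multiset.map_map] at h
    exact h
  rw [e] at hdeg
  have hneg : TArc.deg G τ p < 0 := by
    have htag := ho.tag (β.arc τ hτ)
    obtain ⟨g, hg, ⟨h1, h2, h3, h4⟩ | ⟨h1, h2, h3, h4⟩⟩ := ho
    · have e1 : ∃ g ∈ G, g • p = τ.a := ⟨g⁻¹, G.inv_mem hg, by rw [← h1, inv_smul_smul]⟩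
      unfold TArc.deg
      simp only [h3, if_true, e1]
      by_cases e2 : ∃ g ∈ G, g • p = τ.b
      · have : τ.t = true := by
          obtain ⟨k, hk, e2⟩ := e2
          rw [h4]; symm; apply htag
          exact ⟨g * k, G.mul_mem hg hk, by rw [mul_smul, e2, h2]⟩
        simp [this, e2]
      · simp [e2]
    · have e1 : ∃ g ∈ G, g • p = τ.b := ⟨g⁻¹, G.inv_mem hg, by rw [← h2, inv_smul_smul]⟩
      unfold TArc.deg
      simp only [h4, if_true, e1]
      by_cases e2 : ∃ g ∈ G, g • p = τ.a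
      · have : τ.s = true := by
          obtain ⟨k, hk, e2⟩ := e2
          rw [h3]; symm; apply htag
          exact ⟨g * k, G.mul_mem hg hk, by rw [mul_smul, e2, h1]⟩
        simp [this, e2]
      · simp [e2]
  obtain ⟨υ, hυ, hpos⟩ := exists_pos_of_sum _ _ hdeg hτ hneg
  refine ⟨υ, hυ, ?_⟩
  by_contra hn
  push Not at hn
  have h1 : ∀ g ∈ G, g • p = υ.a → υ.s = true := by
    intro g hg h
    by_contra hs
    have hs' : υ.s = false := by simpa using hs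
    apply hn (g⁻¹ • υ.b) υ.t
    exact ⟨g⁻¹, G.inv_mem hg, Or.inl ⟨by rw [← h, inv_smul_smul], rfl, hs', rfl⟩⟩
  have h2 : ∀ g ∈ G, g • p = υ.b → υ.t = true := by
    intro g hg h
    by_contra hs
    have hs' : υ.t = false := by simpa using hs
    apply hn (g⁻¹ • υ.a) υ.s
    exact ⟨g⁻¹, G.inv_mem hg, Or.inr ⟨rfl, by rw [← h, inv_smul_smul], rfl, hs'⟩⟩
  have : TArc.deg G υ p ≤ 0 := by
    have s1 : (∃ g ∈ G, g • p = υ.a) → υ.s = true := fun ⟨g, hg, h⟩ => h1 g hg h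
    have s2 : (∃ g ∈ G, g • p = υ.b) → υ.t = true := fun ⟨g, hg, h⟩ => h2 g hg h
    unfold TArc.deg
    by_cases e1 : ∃ g ∈ G, g • p = υ.a <;> by_cases e2 : ∃ g ∈ G, g • p = υ.b
    · rw [s1 e1, s2 e2, if_pos e1, if_pos e2]
      simp
    · rw [s1 e1, if_pos e1, if_neg e2]
      simp
    · rw [s2 e2, if_pos e2, if_neg e1]
      simp
    · rw [if_neg e1, if_neg e2]
      simp
  exact absurd hpos (not_lt.2 this)

/-- Structure of the bracelet at a puncture with notched ends. -/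
theorem bad (β : Bracelet G) (hdeg : ∀ z, 0 ≤ β.deg z) {τ : TArc} (hτ : τ ∈ β.arcs) {p w : Cusp}
    {t : Bool} (ho : OrG G τ p w true t) :
    t = false ∧ (∀ g ∈ G, g • p ≠ w) ∧
    (∀ σ ∈ β.arcs, ∀ w1 s1 t1, OrG G σ p w1 s1 t1 → OrG G σ p w s1 false) ∧
    (∀ σ ∈ β.arcs, ∀ q t', ¬ OrG G σ w q true t') := by
  have base : ∀ {τ : TArc}, τ ∈ β.arcs → ∀ {p w : Cusp} {t : Bool}, OrG G τ p w true t →
      (∀ g ∈ G, g • p ≠ w) ∧ (∃ υ ∈ β.arcs, OrG G υ p w false t) ∧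
      (∀ σ ∈ β.arcs, ∀ w1 s1 t1, OrG G σ p w1 s1 t1 → OrG G σ p w s1 t) := by
    intro τ hτ p w t ho
    obtain ⟨υ, hυ, w', t', ho'⟩ := exists_plain β (hdeg p) hτ ho
    obtain ⟨e1, ho2⟩ := ho.key (β.arc τ hτ) (β.arc υ hυ) (β.compat τ hτ υ hυ) ho' (by simp)
    have hsep : ∀ g ∈ G, g • p ≠ w := by
      intro g hg h
      have e2 := ho.tag (β.arc τ hτ) ⟨g, hg, h⟩
      have e3 := ho2.tag (β.arc υ hυ) ⟨g, hg, h⟩
      rw [← e2] at e3
      exact absurd e3 (by simp)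
    refine ⟨hsep, ⟨υ, hυ, ho2⟩, ?_⟩
    intro σ hσ w1 s1 t1 h
    cases s1
    · exact (ho.key (β.arc τ hτ) (β.arc σ hσ) (β.compat τ hτ σ hσ) h (by simp)).2
    · exact (ho2.key (β.arc υ hυ) (β.arc σ hσ) (β.compat υ hυ σ hσ) h (by simp)).2
  obtain ⟨hsep, ⟨υ, hυ, ho2⟩, h4⟩ := base hτ ho
  have hsep' : ∀ g ∈ G, g • w ≠ p := by
    intro g hg h
    exact hsep g⁻¹ (G.inv_mem hg) (by rw [← h, inv_smul_smul])
  have ht : t = false := by
    cases t
    · rfl
    · exfalso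
      obtain ⟨υ1, hυ1, p1, t1, ho3⟩ := exists_plain β (hdeg w) hτ ho.swap
      obtain ⟨e1, ho4⟩ := ho.swap.key (β.arc τ hτ) (β.arc υ1 hυ1) (β.compat τ hτ υ1 hυ1) ho3
        (by simp)
      have ho5 := h4 υ1 hυ1 _ _ _ ho4.swap
      have := (ho5.uniq ho4.swap hsep).2
      simp at this
  subst ht
  refine ⟨rfl, hsep, h4, ?_⟩
  intro σ hσ q t' hq
  obtain ⟨a1, -, a3⟩ := base hσ hq
  have b1 := a3 τ hτ _ _ _ ho.swap
  have b2 := a3 υ hυ _ _ _ ho2.swap
  obtain ⟨f1, -⟩ := hq.key (β.arc σ hσ) (β.arc τ hτ) (β.compat σ hσ τ hτ) ho.swap (by simp)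
  obtain ⟨f2, -⟩ := hq.key (β.arc σ hσ) (β.arc υ hυ) (β.compat σ hσ υ hυ) ho2.swap (by simp)
  rw [f1] at f2
  simp at f2

/-! ### Sides -/

theorem side_ne {h : SLZ} (hh : 2 < |h.1.trace|) (a : Cusp) : side h a ≠ 0 := by
  intro h0
  have e : side h a = eps h a * dt a (h • a) := by
    have h1 := smul_x h a
    have h2 := smul_y h a
    unfold side dt
    rw [← h1, ← h2]; ring
  rw [e] at h0
  have h1 : dt a (h • a) = 0 := (mul_eq_zero.1 h0).resolve_left (eps_ne_zero h a)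
  obtain ⟨n, hn⟩ := fix_par (dt_eq_zero.1 h1).symm
  have htr : (par a n).1.trace = 2 := by
    rw [Matrix.trace_fin_two]
    simp [par]
  rcases hn with rfl | rfl
  · rw [htr] at hh; norm_num at hh
  · rw [Matrix.SpecialLinearGroup.coe_neg, Matrix.trace_neg, htr] at hh
    norm_num at hh

/-! ### Replacing the notched arcs by loops -/

/-- The tagged arc is notched at some end. -/
def IsN (τ : TArc) : Prop := τ.s = true ∨ τ.t = true

/-- The notched end. -/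
def pEnd (τ : TArc) : Cusp := if τ.s then τ.a else τ.b

/-- The plain end. -/
def wEnd (τ : TArc) : Cusp := if τ.s then τ.b else τ.a

theorem orG_ends (β : Bracelet G) (hdeg : ∀ z, 0 ≤ β.deg z) {τ : TArc} (hτ : τ ∈ β.arcs)
    (hn : IsN τ) : OrG G τ (pEnd τ) (wEnd τ) true false ∧
      ((τ.s = true ∧ τ.t = false ∧ pEnd τ = τ.a ∧ wEnd τ = τ.b) ∨
       (τ.s = false ∧ τ.t = true ∧ pEnd τ = τ.b ∧ wEnd τ = τ.a)) := by
  rcases h : τ.s with _ | _
  · have ht : τ.t = true := by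
      rcases hn with hn | hn
      · rw [h] at hn; simp at hn
      · exact hn
    have h1 : pEnd τ = τ.b := by simp [pEnd, h]
    have h2 : wEnd τ = τ.a := by simp [wEnd, h]
    rw [h1, h2]
    refine ⟨?_, Or.inr ⟨rfl, ht, rfl, rfl⟩⟩
    have := (OrG.self (G := G) τ).swap
    rwa [ht, h] at this
  · have h1 : pEnd τ = τ.a := by simp [pEnd, h]
    have h2 : wEnd τ = τ.b := by simp [wEnd, h]
    rw [h1, h2]
    have h3 := OrG.self (G := G) τ
    rw [h] at h3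
    have h4 := (bad β hdeg hτ h3).1
    rw [h4] at h3
    exact ⟨h3, Or.inl ⟨rfl, h4, rfl, rfl⟩⟩

/-- Underlying arcs are equal. -/
def rA (G : Subgroup SLZ) (x y : TArc) : Prop := SameArc G x.a x.b y.a y.b

theorem rA_equiv : Equivalence (rA G) :=
  ⟨fun x => SameArc.refl _ _, fun h => SameArc.symm h, fun h h' => SameArc.trans h h'⟩

theorem deg_apply (β : Bracelet G) (p : Cusp) :
    β.deg p = (β.arcs.map (fun τ => TArc.deg G τ p)).sum := by
  have h := map_multiset_sum (Pi.evalAddMonoidHom (fun _ : Cusp => ℤ) p)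
    (β.arcs.map (TArc.deg G))
  rw [Multiset.map_map] at h
  exact h

open Classical in
theorem count_le (β : Bracelet G) (hdeg : ∀ z, 0 ≤ β.deg z) {τ : TArc} (hτ : τ ∈ β.arcs)
    (hn : IsN τ) : (β.arcs.filter IsN).countP (rA G τ) ≤
      (β.arcs.filter (fun x => ¬ IsN x)).countP (rA G τ) := by
  obtain ⟨ho, -⟩ := orG_ends β hdeg hτ hn
  set p := pEnd τ
  set w := wEnd τ
  obtain ⟨-, hsep, hcl, -⟩ := bad β hdeg hτ ho
  have hpw : SameArc G τ.a τ.b p w := ho.same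
  have hsum := sum_count (fun σ => TArc.deg G σ p) (rA G τ) IsN β.arcs (by
    intro σ hσ
    by_cases hr : rA G τ σ
    · rw [if_pos hr]
      have h1 : SameArc G σ.a σ.b p w := hr.symm.trans hpw
      obtain ⟨k, hk, ⟨h2, h3⟩ | ⟨h2, h3⟩⟩ := h1
      · have h4 : OrG G σ p w σ.s σ.t := ⟨k, hk, Or.inl ⟨h2, h3, rfl, rfl⟩⟩
        have h5 := (h4.uniq (hcl σ hσ _ _ _ h4) hsep).2
        have e1 : ∃ g ∈ G, g • p = σ.a := ⟨k⁻¹, G.inv_mem hk, by rw [← h2, inv_smul_smul]⟩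
        have e2 : ¬ ∃ g ∈ G, g • p = σ.b := by
          rintro ⟨g, hg, h⟩
          exact hsep (k * g) (G.mul_mem hk hg) (by rw [mul_smul, h, h3])
        unfold TArc.deg IsN
        simp only [if_pos e1, if_neg e2, h5]
        cases σ.s <;> simp
      · have h4 : OrG G σ p w σ.t σ.s := ⟨k, hk, Or.inr ⟨h2, h3, rfl, rfl⟩⟩
        have h5 := (h4.uniq (hcl σ hσ _ _ _ h4) hsep).2
        have e1 : ∃ g ∈ G, g • p = σ.b := ⟨k⁻¹, G.inv_mem hk, by rw [← h3, inv_smul_smul]⟩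
        have e2 : ¬ ∃ g ∈ G, g • p = σ.a := by
          rintro ⟨g, hg, h⟩
          exact hsep (k * g) (G.mul_mem hk hg) (by rw [mul_smul, h, h2])
        unfold TArc.deg IsN
        simp only [if_pos e1, if_neg e2, h5]
        cases σ.t <;> simp
    · rw [if_neg hr]
      have e1 : ¬ ∃ g ∈ G, g • p = σ.a := by
        rintro ⟨g, hg, h⟩
        apply hr
        have h4 : OrG G σ p (g⁻¹ • σ.b) σ.s σ.t :=
          ⟨g⁻¹, G.inv_mem hg, Or.inl ⟨by rw [← h, inv_smul_smul], rfl, rfl, rfl⟩⟩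
        exact hpw.trans (hcl σ hσ _ _ _ h4).same.symm
      have e2 : ¬ ∃ g ∈ G, g • p = σ.b := by
        rintro ⟨g, hg, h⟩
        apply hr
        have h4 : OrG G σ p (g⁻¹ • σ.a) σ.t σ.s :=
          ⟨g⁻¹, G.inv_mem hg, Or.inr ⟨rfl, by rw [← h, inv_smul_smul], rfl, rfl⟩⟩
        exact hpw.trans (hcl σ hσ _ _ _ h4).same.symm
      unfold TArc.deg
      simp only [if_neg e1, if_neg e2]
      simp)
  have h0 := hdeg p
  rw [deg_apply, hsum] at h0
  have : ((β.arcs.filter IsN).countP (rA G τ) : ℤ) ≤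
      (β.arcs.filter (fun x => ¬ IsN x)).countP (rA G τ) := by linarith
  exact_mod_cast this

/-- The loop replacing a notched and a plain copy of an arc. -/
def loopOf (gen : Cusp → SLZ) (τ : TArc) : Cusp × Cusp := (wEnd τ, gen (pEnd τ) • wEnd τ)

/-- The data of the generators of the stabilisers. -/
def IsGen (G : Subgroup SLZ) (gen : Cusp → SLZ) : Prop :=
  ∀ p, gen p ∈ G ∧ gen p • p = p ∧
    (gen p = par p (1 * width G p) ∨ gen p = -par p (1 * width G p)) ∧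
    (∀ g ∈ G, g • p = p → ∃ k : ℤ, g = gen p ^ k ∨ g = -gen p ^ k)

theorem exists_gen (hst : StabStatement) (hG : IsSurface G) : ∃ gen, IsGen G gen := by
  choose gen h1 h2 h3 h4 using fun p => gen_stab hst hG p 1 (Or.inl rfl)
  exact ⟨gen, fun p => ⟨h1 p, h2 p, h3 p, h4 p⟩⟩

section geometry

variable (hl : LencStatement) (hG : IsSurface G) {gen : Cusp → SLZ} (hgen : IsGen G gen)
  (β : Bracelet G) (hdeg : ∀ z, 0 ≤ β.deg z)

include hl hG hgen hdeg

theorem simple_loop {τ : TArc} (hτ : τ ∈ β.arcs) (hn : IsN τ) :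
    Simple G (wEnd τ) (gen (pEnd τ) • wEnd τ) ∧
    (∀ x y, (∀ g ∈ G, ¬ Cross x y (g • pEnd τ) (g • wEnd τ)) →
      (∀ g ∈ G, g • x ≠ pEnd τ ∧ g • y ≠ pEnd τ) →
      ∀ g ∈ G, ¬ Cross x y (g • wEnd τ) (g • gen (pEnd τ) • wEnd τ)) ∧
    (∀ g ∈ G, ¬ Cross (pEnd τ) (wEnd τ) (g • wEnd τ) (g • gen (pEnd τ) • wEnd τ)) := by
  obtain ⟨ho, -⟩ := orG_ends β hdeg hτ hn
  obtain ⟨-, hsep, -, -⟩ := bad β hdeg hτ ho
  obtain ⟨g1, g2, -, g4⟩ := hgen (pEnd τ)
  have hs : Simple G τ.a τ.b := ⟨(β.arc τ hτ).ne, (β.arc τ hτ).simple⟩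
  exact hl G hG (pEnd τ) (wEnd τ) (gen (pEnd τ)) g1 g2 g4 (hs.of_same ho.same) hsep

theorem cross_arc_loop {σ τ : TArc} (hσ : σ ∈ β.arcs) (hτ : τ ∈ β.arcs) (hn : IsN τ) :
    ∀ g ∈ G, ¬ Cross σ.a σ.b (g • wEnd τ) (g • gen (pEnd τ) • wEnd τ) := by
  obtain ⟨-, l2, l3⟩ := simple_loop hl hG hgen β hdeg hτ hn
  obtain ⟨ho, -⟩ := orG_ends β hdeg hτ hn
  obtain ⟨-, hsep, hcl, -⟩ := bad β hdeg hτ ho
  by_cases hend : ∀ g ∈ G, g • σ.a ≠ pEnd τ ∧ g • σ.b ≠ pEnd τ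
  · refine l2 σ.a σ.b ?_ hend
    intro g hg hc
    obtain ⟨k, hk, ⟨h1, h2, -⟩ | ⟨h1, h2, -⟩⟩ := ho
    · apply (β.compat σ hσ τ hτ).1 (g * k) (G.mul_mem hg hk)
      rwa [mul_smul, mul_smul, h1, h2]
    · apply (β.compat σ hσ τ hτ).1 (g * k) (G.mul_mem hg hk)
      rw [mul_smul, mul_smul, h1, h2]
      exact cross_comm_right.1 hc
  · push Not at hend
    obtain ⟨g0, hg0, h0⟩ := hend
    have hor : ∃ w1 s1 t1, OrG G σ (pEnd τ) w1 s1 t1 := by
      by_cases h : g0 • σ.a = pEnd τ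
      · exact ⟨_, _, _, g0, hg0, Or.inl ⟨h, rfl, rfl, rfl⟩⟩
      · exact ⟨_, _, _, g0, hg0, Or.inr ⟨rfl, h0 h, rfl, rfl⟩⟩
    obtain ⟨w1, s1, t1, h1⟩ := hor
    obtain ⟨k, hk, ⟨h2, h3⟩ | ⟨h2, h3⟩⟩ := (hcl σ hσ _ _ _ h1).same
    · intro g hg hc
      apply l3 (k * g) (G.mul_mem hk hg)
      rw [← cross_smul k] at hc
      rw [mul_smul, mul_smul]
      rw [h2, h3] at hc
      exact hc
    · intro g hg hc
      apply l3 (k * g) (G.mul_mem hk hg)
      rw [← cross_smul k] at hc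
      rw [mul_smul, mul_smul]
      rw [h2, h3] at hc
      exact cross_comm_left.1 hc

theorem cross_loop_loop {τ τ' : TArc} (hτ : τ ∈ β.arcs) (hn : IsN τ) (hτ' : τ' ∈ β.arcs)
    (hn' : IsN τ') :
    ∀ g ∈ G, ¬ Cross (wEnd τ') (gen (pEnd τ') • wEnd τ') (g • wEnd τ)
      (g • gen (pEnd τ) • wEnd τ) := by
  obtain ⟨-, l2, l3⟩ := simple_loop hl hG hgen β hdeg hτ hn
  obtain ⟨ho, -⟩ := orG_ends β hdeg hτ hn
  obtain ⟨ho', -⟩ := orG_ends β hdeg hτ' hn'
  obtain ⟨-, hsep, hcl, -⟩ := bad β hdeg hτ ho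
  obtain ⟨-, hsep', hcl', hno'⟩ := bad β hdeg hτ' ho'
  have hw : ∀ g ∈ G, g • wEnd τ' ≠ pEnd τ := by
    intro g hg h
    have := ho.smul (G.inv_mem hg)
    rw [← h, inv_smul_smul] at this
    exact hno' τ hτ _ _ this
  refine l2 _ _ ?_ ?_
  · intro g hg hc
    obtain ⟨k, hk, ⟨h2, h3⟩ | ⟨h2, h3⟩⟩ := ho.same
    · refine cross_arc_loop hl hG hgen β hdeg hτ hτ' hn' (g * k)⁻¹
        (G.inv_mem (G.mul_mem hg hk)) ?_
      rw [← cross_smul (g * k), smul_inv_smul, smul_inv_smul, mul_smul, mul_smul, h2, h3]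
      exact cross_swap.1 hc
    · refine cross_arc_loop hl hG hgen β hdeg hτ hτ' hn' (g * k)⁻¹
        (G.inv_mem (G.mul_mem hg hk)) ?_
      rw [← cross_smul (g * k), smul_inv_smul, smul_inv_smul, mul_smul, mul_smul, h2, h3]
      exact cross_comm_left.1 (cross_swap.1 hc)
  · intro g hg
    refine ⟨hw g hg, ?_⟩
    rw [← mul_smul]
    exact hw _ (G.mul_mem hg (hgen _).1)

end geometry

/-! ### Sums and products over lists -/

theorem toList_map_prod {α M : Type*} [CommMonoid M] (s : Multiset α) (f : α → M) :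
    (s.toList.map f).prod = (s.map f).prod := by
  rw [← Multiset.prod_coe, ← Multiset.map_coe, Multiset.coe_toList]

theorem toList_map_sum {α M : Type*} [AddCommMonoid M] (s : Multiset α) (f : α → M) :
    (s.toList.map f).sum = (s.map f).sum := by
  rw [← Multiset.sum_coe, ← Multiset.map_coe, Multiset.coe_toList]

theorem orb_smul (z a : Cusp) {k : SLZ} (hk : k ∈ G) :
    (∃ g ∈ G, g • z = k • a) ↔ (∃ g ∈ G, g • z = a) := by
  constructor
  · rintro ⟨g, hg, h⟩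
    exact ⟨k⁻¹ * g, G.mul_mem (G.inv_mem hk) hg, by rw [mul_smul, h, inv_smul_smul]⟩
  · rintro ⟨g, hg, h⟩
    exact ⟨k * g, G.mul_mem hk hg, by rw [mul_smul, h]⟩

theorem ends_same {a b c d : Cusp} (h : SameArc G a b c d) : ends G a b = ends G c d := by
  classical
  obtain ⟨k, hk, ⟨h2, h3⟩ | ⟨h2, h3⟩⟩ := h
  · funext z
    unfold ends
    rw [← h2, ← h3]
    simp only [orb_smul _ _ hk]
  · funext z
    unfold ends
    rw [← h2, ← h3]
    simp only [orb_smul _ _ hk]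
    rw [add_comm]

theorem deg_plain {τ : TArc} (h : ¬ IsN τ) : TArc.deg G τ = ends G τ.a τ.b := by
  unfold IsN at h
  push Not at h
  have h1 : τ.s = false := by simpa using h.1
  have h2 : τ.t = false := by simpa using h.2
  funext z
  unfold TArc.deg ends
  rw [h1, h2]
  simp

theorem brsysb (hl : LencStatement) (hv : VgenStatement) (hst : StabStatement) :
    BrsysbStatement := by
  classical
  intro G hG β hdeg
  obtain ⟨gen, hgen⟩ := exists_gen hst hG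
  set N := β.arcs.filter IsN with hN
  set P := β.arcs.filter (fun x => ¬ IsN x) with hP
  have hNP : P + N = β.arcs := by
    rw [hN, hP, add_comm]; exact Multiset.filter_add_not IsN β.arcs
  obtain ⟨P', P'', hPP, hrel⟩ := exists_match (rA G) rA_equiv N P (by
    intro x hx
    obtain ⟨h1, h2⟩ := Multiset.mem_filter.1 hx
    exact count_le β hdeg h1 h2)
  have mN : ∀ τ ∈ N, τ ∈ β.arcs ∧ IsN τ := fun τ h => Multiset.mem_filter.1 h
  have mP : ∀ τ ∈ P, τ ∈ β.arcs ∧ ¬ IsN τ := fun τ h => Multiset.mem_filter.1 h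
  have mP' : ∀ τ ∈ P', τ ∈ β.arcs ∧ ¬ IsN τ := fun τ h =>
    mP τ (by rw [hPP]; exact Multiset.mem_add.2 (Or.inl h))
  have mP'' : ∀ τ ∈ P'', τ ∈ β.arcs ∧ ¬ IsN τ := fun τ h =>
    mP τ (by rw [hPP]; exact Multiset.mem_add.2 (Or.inr h))
  have hmem : ∀ q : Cusp × Cusp, q ∈ (P'.map (fun τ => (τ.a, τ.b)) +
      N.map (loopOf gen)).toList → (∃ τ ∈ β.arcs, q = (τ.a, τ.b)) ∨
        (∃ τ ∈ β.arcs, IsN τ ∧ q = (wEnd τ, gen (pEnd τ) • wEnd τ)) := by
    intro q hq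
    rw [Multiset.mem_toList, Multiset.mem_add, Multiset.mem_map, Multiset.mem_map] at hq
    rcases hq with ⟨τ, h1, h2⟩ | ⟨τ, h1, h2⟩
    · exact Or.inl ⟨τ, (mP' τ h1).1, h2.symm⟩
    · exact Or.inr ⟨τ, (mN τ h1).1, (mN τ h1).2, h2.symm⟩
  have hside : ∀ l ∈ β.loops, ∀ τ ∈ β.arcs, ∀ g ∈ G, 0 < side l.1 (g • τ.a) * side l.1 (g • τ.b) := by
    intro l hl' τ hτ g hg
    have h1 := β.disj l hl' τ hτ g hg
    have h2 := side_ne (β.loop l hl').1.hyp
    exact lt_of_le_of_ne h1 (mul_ne_zero (h2 _) (h2 _)).symm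
  refine ⟨⟨(P'.map (fun τ => (τ.a, τ.b)) + N.map (loopOf gen)).toList, β.loops, ?_, ?_,
    β.loop, ?_, β.pair⟩, ?_, ?_⟩
  · intro q hq
    rcases hmem q hq with ⟨τ, h1, rfl⟩ | ⟨τ, h1, h2, rfl⟩
    · exact (β.arc τ h1).ne
    · exact (simple_loop hl hG hgen β hdeg h1 h2).1.1
  · intro q hq q' hq' g hg hc
    rcases hmem q hq with ⟨τ, h1, rfl⟩ | ⟨τ, h1, h2, rfl⟩ <;>
      rcases hmem q' hq' with ⟨τ', h1', rfl⟩ | ⟨τ', h1', h2', rfl⟩
    · exact (β.compat τ h1 τ' h1').1 g hg hc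
    · exact cross_arc_loop hl hG hgen β hdeg h1 h1' h2' g hg hc
    · refine cross_arc_loop hl hG hgen β hdeg h1' h1 h2 g⁻¹ (G.inv_mem hg) ?_
      rw [← cross_smul g, smul_inv_smul, smul_inv_smul]
      exact cross_swap.1 hc
    · exact cross_loop_loop hl hG hgen β hdeg h1' h2' h1 h2 g hg hc
  · intro l hl' q hq g hg
    rcases hmem q hq with ⟨τ, h1, rfl⟩ | ⟨τ, h1, h2, rfl⟩
    · exact hside l hl' τ h1 g hg
    · obtain ⟨ho, -⟩ := orG_ends β hdeg h1 h2
      have hpw : ∀ g ∈ G, 0 < side l.1 (g • pEnd τ) * side l.1 (g • wEnd τ) := by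
        intro g hg
        obtain ⟨k, hk, ⟨h2, h3⟩ | ⟨h2, h3⟩⟩ := ho.same
        · have := hside l hl' τ h1 (g * k) (G.mul_mem hg hk)
          rwa [mul_smul, mul_smul, h2, h3] at this
        · have := hside l hl' τ h1 (g * k) (G.mul_mem hg hk)
          rw [mul_smul, mul_smul, h2, h3] at this
          rwa [mul_comm]
      have e1 := hpw g hg
      have e2 := hpw (g * gen (pEnd τ)) (G.mul_mem hg (hgen _).1)
      rw [mul_smul, mul_smul, (hgen (pEnd τ)).2.1] at e2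
      change 0 < side l.1 (g • wEnd τ) * side l.1 (g • gen (pEnd τ) • wEnd τ)
      have e3 := mul_pos e1 e2
      have e4 : side l.1 (g • pEnd τ) * side l.1 (g • wEnd τ) *
          (side l.1 (g • pEnd τ) * side l.1 (g • gen (pEnd τ) • wEnd τ)) =
          (side l.1 (g • pEnd τ) * side l.1 (g • pEnd τ)) *
          (side l.1 (g • wEnd τ) * side l.1 (g • gen (pEnd τ) • wEnd τ)) := by ring
      rw [e4] at e3
      have e5 : 0 < side l.1 (g • pEnd τ) * side l.1 (g • pEnd τ) :=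
        mul_self_pos.2 (side_ne (β.loop l hl').1.hyp _)
      exact (pos_iff_pos_of_mul_pos e3).1 e5
  · -- degrees
    change ((P'.map (fun τ => (τ.a, τ.b)) + N.map (loopOf gen)).toList.map
      (fun p => ends G p.1 p.2)).sum = _
    rw [toList_map_sum, Multiset.map_add, Multiset.sum_add, Multiset.map_map, Multiset.map_map]
    have e1 : (N.map ((fun p : Cusp × Cusp => ends G p.1 p.2) ∘ loopOf gen)).sum =
        (N.map (TArc.deg G)).sum + (P''.map (TArc.deg G)).sum := by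
      apply rel_sum
      refine hrel.mono ?_
      intro τ hτ σ hσ hr
      obtain ⟨h1, h2⟩ := mN τ hτ
      obtain ⟨h3, h4⟩ := mP'' σ hσ
      obtain ⟨-, ho⟩ := orG_ends β hdeg h1 h2
      rw [deg_plain h4, ← ends_same hr]
      funext z
      change ends G (wEnd τ) (gen (pEnd τ) • wEnd τ) z = TArc.deg G τ z + ends G τ.a τ.b z
      unfold ends TArc.deg
      simp only [orb_smul _ _ (hgen (pEnd τ)).1]
      rcases ho with ⟨o1, o2, o3, o4⟩ | ⟨o1, o2, o3, o4⟩ <;> rw [o1, o2, o4] <;>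
        by_cases i1 : (∃ g ∈ G, g • z = τ.a) <;> by_cases i2 : (∃ g ∈ G, g • z = τ.b) <;>
        simp [i1, i2]
    have e2 : (P'.map ((fun p : Cusp × Cusp => ends G p.1 p.2) ∘ fun τ : TArc => (τ.a, τ.b))).sum
        = (P'.map (TArc.deg G)).sum := by
      congr 1
      apply Multiset.map_congr rfl
      intro τ hτ
      exact (deg_plain (mP' τ hτ).2).symm
    rw [e1, e2]
    unfold Bracelet.deg
    rw [← hNP, hPP, Multiset.map_add, Multiset.map_add, Multiset.sum_add, Multiset.sum_add]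
    abel
  · -- functions
    intro K _ _ L
    unfold Lam.IS Lam.I
    congr 1
    rw [toList_map_prod, Multiset.map_add, Multiset.prod_add, Multiset.map_map, Multiset.map_map]
    have hpl : ∀ τ, ¬ IsN τ → L.arc τ = L.lam τ.a τ.b := by
      intro τ h
      unfold IsN at h
      push Not at h
      have h1 : τ.s = false := by simpa using h.1
      have h2 : τ.t = false := by simpa using h.2
      unfold Lam.arc
      rw [h1, h2]
      simp
    have e1 : (N.map ((fun p : Cusp × Cusp => L.lam p.1 p.2) ∘ loopOf gen)).prod =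
        (N.map L.arc).prod * (P''.map L.arc).prod := by
      apply rel_prod
      refine hrel.mono ?_
      intro τ hτ σ hσ hr
      obtain ⟨h1, h2⟩ := mN τ hτ
      obtain ⟨h3, h4⟩ := mP'' σ hσ
      obtain ⟨-, ho⟩ := orG_ends β hdeg h1 h2
      have hsame : L.lam σ.a σ.b = L.lam τ.a τ.b := by
        obtain ⟨k, hk, ⟨a1, a2⟩ | ⟨a1, a2⟩⟩ := hr
        · rw [← a1, ← a2, L.inv k hk]
        · rw [← a1, ← a2, L.inv k hk, L.symm]
      rw [hpl σ h4, hsame]
      change L.lam (wEnd τ) (gen (pEnd τ) • wEnd τ) = _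
      have hγ : gen (pEnd τ) • wEnd τ = par (pEnd τ) (1 * width G (pEnd τ)) • wEnd τ := by
        rcases (hgen (pEnd τ)).2.2.1 with h | h
        · rw [h]
        · rw [h, neg_smul']
      rw [hγ, hv G K L hG (pEnd τ) (wEnd τ) 1]
      unfold Lam.arc
      rcases ho with ⟨o1, o2, o3, o4⟩ | ⟨o1, o2, o3, o4⟩
      · rw [o1, o2, o3, o4]; simp; ring
      · rw [o1, o2, o3, o4, L.symm τ.b τ.a]; simp; ring
    have e2 : (P'.map ((fun p : Cusp × Cusp => L.lam p.1 p.2) ∘ fun τ : TArc => (τ.a, τ.b))).prod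
        = (P'.map L.arc).prod := by
      congr 1
      apply Multiset.map_congr rfl
      intro τ hτ
      exact (hpl τ (mP' τ hτ).2).symm
    rw [e1, e2, ← hNP, hPP, Multiset.map_add, Multiset.map_add, Multiset.prod_add,
      Multiset.prod_add]
    ring

end Pool.Agent.Lib.MP_eee7a8_ag.TB.C63
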