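import Pool.Agent.Lib.MP_eee7a8_ag.TB.Iface4
import Pool.Agent.Lib.MP_eee7a8_ag.TB.A.Coord

/-!
# TAGBR, module VCORN: the pole of `v u` at `e = uv`
-/

open Matrix

namespace Pool.Agent.Lib.MP_eee7a8_ag.TB.C63

/-- A generator of the stabiliser of `u` moving in a given direction. -/
theorem gen_stab (hst : StabStatement) {G : Subgroup SLZ} (hG : IsSurface G) (u : Cusp) (s : ℤ)
    (hs : s = 1 ∨ s = -1) :
    ∃ γ ∈ G, γ • u = u ∧ (γ = par u (s * width G u) ∨ γ = -par u (s * width G u)) ∧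
      (∀ g ∈ G, g • u = u → ∃ k : ℤ, g = γ ^ k ∨ g = -γ ^ k) := by
  obtain ⟨h0, h1, h2⟩ := hst G hG u
  have hneg : ∀ (a : SLZ) (k : ℤ), (-a) ^ k = a ^ k ∨ (-a) ^ k = -a ^ k := by
    intro a k
    rcases Int.even_or_odd k with hk | hk
    · left; exact hk.neg_zpow a
    · right; exact hk.neg_zpow a
  have key : ∀ γ : SLZ, (γ = par u (s * width G u) ∨ γ = -par u (s * width G u)) →
      γ • u = u ∧ (∀ g ∈ G, g • u = u → ∃ k : ℤ, g = γ ^ k ∨ g = -γ ^ k) := by
    intro γ hγ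
    constructor
    · rcases hγ with rfl | rfl
      · exact par_smul_self _ _
      · rw [neg_smul']; exact par_smul_self _ _
    · intro g hg hgu
      obtain ⟨k, hk⟩ := h2 g hg hgu
      refine ⟨s * k, ?_⟩
      have e : par u (s * width G u) ^ (s * k) = par u (k * width G u) := by
        rw [par_zpow]
        congr 1
        rcases hs with rfl | rfl <;> ring
      rcases hγ with rfl | rfl
      · rw [e]; exact hk
      · rcases hneg (par u (s * width G u)) (s * k) with h | h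
        · rw [h, e]; exact hk
        · rw [h, e, neg_neg]; exact hk.symm
  have hmem : par u (s * width G u) ∈ G ∨ -par u (s * width G u) ∈ G := by
    rcases hs with rfl | rfl
    · rw [one_mul]; exact h1
    · rw [neg_one_mul, ← par_inv]
      rcases h1 with h1 | h1
      · left; exact G.inv_mem h1
      · right
        have := G.inv_mem h1
        have e : (-par u (width G u))⁻¹ = -(par u (width G u : ℤ))⁻¹ := by
          rw [inv_eq_iff_mul_eq_one, neg_mul_neg, mul_inv_cancel]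
        rwa [e] at this
  rcases hmem with hm | hm
  · exact ⟨_, hm, (key _ (Or.inl rfl)).1, Or.inl rfl, (key _ (Or.inl rfl)).2⟩
  · exact ⟨_, hm, (key _ (Or.inr rfl)).1, Or.inr rfl, (key _ (Or.inr rfl)).2⟩

/-- Coordinates at `u` in a given direction, and a generator of the stabiliser. -/
theorem coord_gen (hst : StabStatement) {G : Subgroup SLZ} (hG : IsSurface G) (u : Cusp) (s : ℤ)
    (hs : s = 1 ∨ s = -1) (t : Cusp → ℚ)
    (tpar : ∀ n : ℤ, ∀ x, x ≠ u → par u n • x ≠ u ∧ t (par u n • x) = t x + n) :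
    ∃ γ ∈ G, γ • u = u ∧ (γ = par u (s * width G u) ∨ γ = -par u (s * width G u)) ∧
      (∀ g ∈ G, g • u = u → ∃ k : ℤ, g = γ ^ k ∨ g = -γ ^ k) ∧
      (∀ a, a ≠ u → γ • a ≠ u ∧ t (γ • a) = t a + s * width G u) ∧
      (∀ g ∈ G, g • u = u → ∃ k : ℤ, ∀ a, a ≠ u → g • a ≠ u ∧
        t (g • a) = t a + k * width G u) := by
  obtain ⟨γ, h1, h2, h3, h4⟩ := gen_stab hst hG u s hs
  refine ⟨γ, h1, h2, h3, h4, ?_, ?_⟩
  · intro a ha
    have := tpar (s * width G u) a ha
    rcases h3 with rfl | rfl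
    · refine ⟨this.1, ?_⟩
      rw [this.2]; push_cast; ring
    · rw [neg_smul']
      refine ⟨this.1, ?_⟩
      rw [this.2]; push_cast; ring
  · intro g hg hgu
    obtain ⟨k, hk⟩ := (hst G hG u).2.2 g hg hgu
    refine ⟨k, fun a ha => ?_⟩
    have := tpar (k * width G u) a ha
    rcases hk with rfl | rfl
    · refine ⟨this.1, ?_⟩
      rw [this.2]; push_cast; ring
    · rw [neg_smul']
      refine ⟨this.1, ?_⟩
      rw [this.2]; push_cast; ring

theorem E_smul {G : Subgroup SLZ} {ι : Type} {T : Fam ι} {a b : Cusp} (h : T.E G a b) {g : SLZ}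
    (hg : g ∈ G) : T.E G (g • a) (g • b) := by
  obtain ⟨i, k, hk, h⟩ := h
  refine ⟨i, g * k, G.mul_mem hg hk, ?_⟩
  rcases h with ⟨h1, h2⟩ | ⟨h1, h2⟩
  · left; rw [mul_smul, mul_smul, h1, h2]; exact ⟨rfl, rfl⟩
  · right; rw [mul_smul, mul_smul, h1, h2]; exact ⟨rfl, rfl⟩

theorem E_symm {G : Subgroup SLZ} {ι : Type} {T : Fam ι} {a b : Cusp} (h : T.E G a b) :
    T.E G b a := by
  obtain ⟨i, k, hk, h⟩ := h
  exact ⟨i, k, hk, h.symm⟩

theorem Ge_smul {G : Subgroup SLZ} {e : Option (Cusp × Cusp)} {a b : Cusp} (h : Ge G e a b)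
    {g : SLZ} (hg : g ∈ G) : Ge G e (g • a) (g • b) := by
  obtain ⟨p, hp, k, hk, h⟩ := h
  refine ⟨p, hp, g * k, G.mul_mem hg hk, ?_⟩
  rcases h with ⟨h1, h2⟩ | ⟨h1, h2⟩
  · left; rw [mul_smul, mul_smul, h1, h2]; exact ⟨rfl, rfl⟩
  · right; rw [mul_smul, mul_smul, h1, h2]; exact ⟨rfl, rfl⟩

theorem Ge_symm {G : Subgroup SLZ} {e : Option (Cusp × Cusp)} {a b : Cusp} (h : Ge G e a b) :
    Ge G e b a := by
  obtain ⟨p, hp, k, hk, h⟩ := h
  exact ⟨p, hp, k, hk, h.symm⟩

/-- The combinatorial part, with coordinates `t` in which the order is `y < v < x`. -/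
theorem vcorn_aux (hv : VgenStatement) (hh : HoroStatement) (hnz : NonzeroStatement)
    (G : Subgroup SLZ) (K : Type) [Field K] [Algebra ℂ K] (L : Lam G K) (hG : IsSurface G)
    (u v : Cusp) (hA : Adm G (some (u, v))) (ι : Type) [Fintype ι] (T : Fam ι)
    (hT : Good G (some (u, v)) T) (x y : Cusp) (hux : T.E G u x) (hvx : T.E G v x)
    (huy : T.E G u y) (hvy : T.E G v y) (nxu : x ≠ u) (nyu : y ≠ u) (nvu : v ≠ u)
    (t : Cusp → ℚ) (s : ℤ) (hs : s = 1 ∨ s = -1)
    (tinj : ∀ x y, x ≠ u → y ≠ u → t x = t y → x = y) (γ : SLZ) (hγ : γ ∈ G) (hγu : γ • u = u)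
    (hγp : γ = par u (s * width G u) ∨ γ = -par u (s * width G u))
    (hγg : ∀ g ∈ G, g • u = u → ∃ k : ℤ, g = γ ^ k ∨ g = -γ ^ k)
    (W : ℚ) (hW : 0 < W)
    (hγt : ∀ a, a ≠ u → γ • a ≠ u ∧ t (γ • a) = t a + W)
    (hgt : ∀ g ∈ G, g • u = u → ∃ k : ℤ, ∀ a, a ≠ u → g • a ≠ u ∧ t (g • a) = t a + k * W)
    (tc1 : ∀ b x y, b ≠ u → x ≠ u → y ≠ u →
      (Cross u b x y ↔ (t x < t b ∧ t b < t y) ∨ (t y < t b ∧ t b < t x)))
    (tc2 : ∀ a b x y, a ≠ u → b ≠ u → x ≠ u → y ≠ u → (Cross a b x y ↔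
      (((t a < t x ∧ t x < t b) ∨ (t b < t x ∧ t x < t a)) ∧
        ((t a < t y ∧ t b < t y) ∨ (t y < t a ∧ t y < t b))) ∨
      (((t a < t x ∧ t b < t x) ∨ (t x < t a ∧ t x < t b)) ∧
        ((t a < t y ∧ t y < t b) ∨ (t b < t y ∧ t y < t a)))))
    (h1 : t y < t v) (h2 : t v < t x) :
    ∃ γ ∈ G, γ • u = u ∧ NC G (some (u, v)) x (γ • y) ∧
      L.v u = (L.lam x y + L.lam x (γ • y)) / (L.lam u x * L.lam u y) := by
  have guv : Ge G (some (u, v)) u v := ⟨(u, v), rfl, 1, G.one_mem, Or.inl ⟨one_smul _ _, one_smul _ _⟩⟩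
  have hγi : γ⁻¹ ∈ G := G.inv_mem hγ
  have hγiu : γ⁻¹ • u = u := by rw [inv_smul_eq_iff, hγu]
  have hγit : ∀ a, a ≠ u → γ⁻¹ • a ≠ u ∧ t (γ⁻¹ • a) = t a - W := by
    intro a ha
    have hne : γ⁻¹ • a ≠ u := by
      intro h
      rw [inv_smul_eq_iff, hγu] at h
      exact ha h
    refine ⟨hne, ?_⟩
    have := (hγt _ hne).2
    rw [smul_inv_smul] at this
    linarith
  have gv : γ • v ≠ u ∧ t (γ • v) = t v + W := hγt v nvu
  have gy : γ • y ≠ u ∧ t (γ • y) = t y + W := hγt y nyu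
  have giv : γ⁻¹ • v ≠ u ∧ t (γ⁻¹ • v) = t v - W := hγit v nvu
  have nc := hT.nocross
  -- `x < γ v`
  have e1 : t x < t v + W := by
    have hc : ¬ Cross u (γ • v) v x := by
      apply nc _ _ _ _ _ hvx
      have := E_smul (hT.mem _ _ guv) hγ
      rwa [hγu] at this
    rw [tc1 _ _ _ gv.1 nvu nxu, gv.2] at hc
    push Not at hc
    have h3 : t x ≤ t v + W := by
      by_contra h
      push Not at h
      linarith [hc.1 (by linarith)]
    rcases lt_or_eq_of_le h3 with h | h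
    · exact h
    · exfalso
      have hx : x = γ • v := tinj _ _ nxu gv.1 (by rw [h, gv.2])
      have g2 : Ge G (some (u, v)) u (γ • v) := by
        have := Ge_smul guv hγ
        rwa [hγu] at this
      refine hT.nofold v u (γ • v) (Ge_symm guv) g2 ?_ (hx ▸ hvx)
      intro hh'
      have : t v = t v + W := by rw [← gv.2, ← hh']
      linarith
  -- `γ⁻¹ v < y`
  have e2 : t v - W < t y := by
    have hc : ¬ Cross u (γ⁻¹ • v) y v := by
      apply nc _ _ _ _ _ (E_symm hvy)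
      have := E_smul (hT.mem _ _ guv) hγi
      rwa [hγiu] at this
    rw [tc1 _ _ _ giv.1 nyu nvu, giv.2] at hc
    push Not at hc
    have h3 : t v - W ≤ t y := by
      by_contra h
      push Not at h
      linarith [hc.1 (by linarith)]
    rcases lt_or_eq_of_le h3 with h | h
    · exact h
    · exfalso
      have hx : y = γ⁻¹ • v := tinj _ _ nyu giv.1 (by rw [← h, giv.2])
      have g2 : Ge G (some (u, v)) u (γ⁻¹ • v) := by
        have := Ge_smul guv hγi
        rwa [hγiu] at this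
      refine hT.nofold v u (γ⁻¹ • v) (Ge_symm guv) g2 ?_ (hx ▸ hvy)
      intro hh'
      have : t v = t v - W := by rw [← giv.2, ← hh']
      linarith
  -- `x ≤ γ y`
  have e3 : t x ≤ t y + W := by
    have hc : ¬ Cross (γ • v) (γ • y) v x := nc _ _ _ _ (E_smul hvy hγ) hvx
    rw [tc2 _ _ _ _ gv.1 gy.1 nvu nxu, gv.2, gy.2] at hc
    by_contra h
    push Not at h
    apply hc
    right
    refine ⟨Or.inr ⟨by linarith, by linarith⟩, Or.inr ⟨by linarith, by linarith⟩⟩
  have lne : ∀ a b, a ≠ b → L.lam a b ≠ 0 := hnz G K L hG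
  refine ⟨γ, hγ, hγu, ?_, ?_⟩
  · -- `NC`
    intro c d hcd hcr
    have hend : ∀ d, Ge G (some (u, v)) u d → ∃ k : ℤ, d ≠ u ∧ t d = t v + k * W := by
      rintro d ⟨p, hp, g, hg, h⟩
      obtain rfl : (u, v) = p := Option.some.inj hp
      rcases h with ⟨h5, h6⟩ | ⟨h5, h6⟩
      · obtain ⟨k, hk⟩ := hgt g hg h5
        refine ⟨k, ?_, ?_⟩
        · rw [← h6]; exact (hk v nvu).1
        · rw [← h6]; exact (hk v nvu).2
      · exfalso
        refine (hA _ rfl).2 g⁻¹ (G.inv_mem hg) ?_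
        change g⁻¹ • u = v
        rw [inv_smul_eq_iff]; exact h6.symm
    have hcu : ∀ d, Ge G (some (u, v)) u d → ¬ Cross u d x (γ • y) := by
      intro d hd hc
      obtain ⟨k, hk1, hk2⟩ := hend d hd
      rw [tc1 _ _ _ hk1 nxu gy.1, gy.2, hk2] at hc
      rcases hc with ⟨h3, h4⟩ | ⟨h3, h4⟩
      · have k1 : 0 < (k : ℚ) * W := by linarith
        have k2 : (k : ℚ) * W < W := by linarith
        have k3 : 0 < (k : ℚ) := (pos_iff_pos_of_mul_pos k1).2 hW
        have k4 : (k : ℚ) < 1 := by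
          by_contra h
          push Not at h
          nlinarith
        have k5 : 0 < k := by exact_mod_cast k3
        have k6 : k < 1 := by exact_mod_cast k4
        omega
      · linarith
    rcases eq_or_ne c u with rfl | hc
    · exact hcu d hcd (cross_swap.1 hcr)
    rcases eq_or_ne d u with rfl | hd
    · exact hcu c (Ge_symm hcd) (cross_comm_left.1 (cross_swap.1 hcr))
    have f1 : ¬ Cross u x c d := nc _ _ _ _ hux (hT.mem _ _ hcd)
    have f2 : ¬ Cross u (γ • y) c d := by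
      apply nc _ _ _ _ _ (hT.mem _ _ hcd)
      have := E_smul huy hγ
      rwa [hγu] at this
    rw [tc1 _ _ _ nxu hc hd] at f1
    rw [tc1 _ _ _ gy.1 hc hd] at f2
    rw [tc2 _ _ _ _ nxu gy.1 hc hd] at hcr
    rw [gy.2] at *
    grind
  · rcases lt_or_eq_of_le e3 with h | h
    · have := hh G K L hG u y x γ hγ hγu hγg (by
        rw [tc1 _ _ _ nxu nyu gy.1, gy.2]
        left
        exact ⟨by linarith, h⟩)
      rw [eq_div_iff (mul_ne_zero (lne _ _ nxu.symm) (lne _ _ nyu.symm)), L.symm x y, ← this]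
      ring
    · have hx : x = γ • y := tinj _ _ nxu gy.1 (by rw [h, gy.2])
      have e5 : γ • y = par u (s * width G u) • y := by
        rcases hγp with rfl | rfl
        · rfl
        · rw [neg_smul']
      have e6 := hv G K L hG u y s
      have hs' : ((|s| : ℤ) : K) = 1 := by rcases hs with rfl | rfl <;> simp
      rw [← e5, ← hx, hs', one_mul] at e6
      have e7 : L.lam u x = L.lam u y := by
        have := L.inv γ hγ u y
        rwa [hγu, ← hx] at this
      rw [← hx, L.self, add_zero, e7, L.symm x y, e6]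
      have := lne _ _ nyu.symm
      field_simp

theorem vcorn (hh : HoroStatement) (hv : VgenStatement) (hst : StabStatement)
    (hnz : NonzeroStatement) : VcornStatement := by
  intro G K _ _ L hG u v hA ι _ T hT x y hux hvx huy hvy hc
  obtain ⟨t, tinj, tpar, -, tc1, tc2⟩ := coord u
  have hne := hc.ne
  have nvu : v ≠ u := hne.1.symm
  have nxu : x ≠ u := hne.2.1.symm
  have nyu : y ≠ u := hne.2.2.1.symm
  have hw : (0 : ℚ) < width G u := by exact_mod_cast (hst G hG u).1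
  have hc' := (tc1 v x y nvu nxu nyu).1 hc
  rcases hc' with ⟨h1, h2⟩ | ⟨h1, h2⟩
  · -- `x < v < y`: use `-t` and `s = -1`
    obtain ⟨γ, a1, a2, a3, a4, a5, a6⟩ := coord_gen hst hG u (-1) (Or.inr rfl) t tpar
    refine vcorn_aux hv hh hnz G K L hG u v hA ι T hT x y hux hvx huy hvy nxu nyu nvu
      (fun a => -t a) (-1) (Or.inr rfl) ?_ γ a1 a2 a3 a4 (width G u) hw ?_ ?_ ?_ ?_ ?_ ?_
    · intro x y hx hy h
      exact tinj x y hx hy (by simpa using h)
    · intro a ha
      refine ⟨(a5 a ha).1, ?_⟩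
      change -t (γ • a) = _
      rw [(a5 a ha).2]; push_cast; ring
    · intro g hg hgu
      obtain ⟨k, hk⟩ := a6 g hg hgu
      refine ⟨-k, fun a ha => ⟨(hk a ha).1, ?_⟩⟩
      change -t (g • a) = _
      rw [(hk a ha).2]; push_cast; ring
    · intro b x y hb hx hy
      rw [tc1 b x y hb hx hy]
      simp only [neg_lt_neg_iff]
      tauto
    · intro a b x y ha hb hx hy
      rw [tc2 a b x y ha hb hx hy]
      simp only [neg_lt_neg_iff]
      tauto
    · exact neg_lt_neg h2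
    · exact neg_lt_neg h1
  · obtain ⟨γ, a1, a2, a3, a4, a5, a6⟩ := coord_gen hst hG u 1 (Or.inl rfl) t tpar
    refine vcorn_aux hv hh hnz G K L hG u v hA ι T hT x y hux hvx huy hvy nxu nyu nvu
      t 1 (Or.inl rfl) tinj γ a1 a2 a3 a4 (width G u) hw ?_ a6 tc1 tc2 h1 h2
    intro a ha
    refine ⟨(a5 a ha).1, ?_⟩
    rw [(a5 a ha).2]; push_cast; ring

end Pool.Agent.Lib.MP_eee7a8_ag.TB.C63
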